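import Pool.Agent.Lib.MP_9d59aa_al.Circle

namespace Pool.Agent.Results.MP_9d59aa_al.C1Trivial

open Pool.Agent.Lib.MP_9d59aa_al

/-- The Thompson-Stein group T(2,3), as a group of homeomorphisms of R/Z. -/
def T23 : Subgroup (AddCircle (1 : ℝ) ≃ₜ AddCircle (1 : ℝ)) where
  carrier := {f | IsT23 f}
  one_mem' := id isT23_one
  mul_mem' := fun hf hg => id (isT23_mul hf hg)
  inv_mem' := fun hf => id (isT23_inv hf)

/-- The group of C^1 diffeomorphisms of R/Z (both orientations allowed). -/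
def Diff1 : Subgroup (AddCircle (1 : ℝ) ≃ₜ AddCircle (1 : ℝ)) where
  carrier := {f | IsC1 f ∧ IsC1 f.symm}
  one_mem' := ⟨isC1_one, isC1_one⟩
  mul_mem' := fun hf hg => ⟨isC1_mul hf.1 hg.1, isC1_mul hg.2 hf.2⟩
  inv_mem' := fun hf => ⟨hf.2, hf.1⟩

theorem result (ρ : T23 →* Diff1) (g : T23) : ρ g = 1 :=
  Subtype.ext (T23_trivial T23 (fun _ => Iff.rfl) (Diff1.subtype.comp ρ) (fun g => (ρ g).2.1) g)

end Pool.Agent.Results.MP_9d59aa_al.C1Trivial
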